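import Mathlib

/-!
MP_3f93e8_co: an explicit graph that is not Archimedean.
The complete bipartite graph `K_{3,3}` is not a max-tolerance graph, hence non-Archimedean.
-/

namespace Pool.Agent.Results.MP_3f93e8_co.KThreeThree

open Filter

/-- `φ` is symmetric, positive and Archimedean (only the values at positive arguments matter). -/
structure ArchFun (φ : ℝ → ℝ → ℝ) : Prop where
  symm : ∀ x y, 0 < x → 0 < y → φ x y = φ y x
  pos : ∀ x y, 0 < x → 0 < y → 0 < φ x y
  left : ∀ c, 0 < c → Tendsto (fun x => φ x c) atTop atTop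
  right : ∀ c, 0 < c → Tendsto (fun x => φ c x) atTop atTop

/-- `G` is a `φ`-tolerance graph: there are closed bounded intervals `[a v, b v]` and positive
tolerances `t v` such that distinct `u, v` are adjacent iff the length of the intersection of
their intervals is at least `φ (t u) (t v)`. -/
def IsToleranceGraph {V : Type*} (φ : ℝ → ℝ → ℝ) (G : SimpleGraph V) : Prop :=
  ∃ a b t : V → ℝ, (∀ v, a v ≤ b v) ∧ (∀ v, 0 < t v) ∧
    ∀ u v, u ≠ v → (G.Adj u v ↔
      φ (t u) (t v) ≤ MeasureTheory.volume.real (Set.Icc (a u) (b u) ∩ Set.Icc (a v) (b v)))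

/-- `G` is Archimedean: a `φ`-tolerance graph for every symmetric positive Archimedean `φ`. -/
def IsArchimedean {V : Type*} (G : SimpleGraph V) : Prop :=
  ∀ φ, ArchFun φ → IsToleranceGraph φ G

/-- the complete bipartite graph `K_{3,3}` -/
abbrev K33 : SimpleGraph (Fin 3 ⊕ Fin 3) := completeBipartiteGraph (Fin 3) (Fin 3)

theorem archFun_max : ArchFun (fun x y => max x y) where
  symm x y _ _ := max_comm x y
  pos x y hx _ := lt_of_lt_of_le hx (le_max_left x y)
  left c _ := tendsto_atTop_mono (fun x => le_max_left x c) tendsto_id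
  right c _ := tendsto_atTop_mono (fun x => le_max_right c x) tendsto_id

theorem third (c0 c1 d : Fin 3) (h : c0 ≠ c1) (h0 : d ≠ c0) (h1 : d ≠ c1) (e : Fin 3)
    (he0 : e ≠ c0) (he1 : e ≠ c1) : e = d := by
  revert c0 c1 d e; decide

theorem others (x : Fin 3) : ∃ x1 x2 : Fin 3, x1 ≠ x ∧ x2 ≠ x ∧ x1 ≠ x2 ∧
    ∀ x' : Fin 3, x' ≠ x → x' = x1 ∨ x' = x2 := by
  revert x; decide

theorem comb (c1 c2 c3 c4 : Fin 3) (h : c2 ≠ c1) (h' : c4 ≠ c3) :
    c1 = c3 ∨ c1 = c4 ∨ c2 = c3 ∨ c2 = c4 := by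
  revert c1 c2 c3 c4; decide

/-- `x` is the strict maximum of the family in coordinate `c`. -/
def Top (A : Fin 3 → Fin 3 → ℝ) (x c : Fin 3) : Prop := ∀ x', x' ≠ x → A x' c < A x c

theorem top_unique {A : Fin 3 → Fin 3 → ℝ} {x y c : Fin 3} (hx : Top A x c) (hy : Top A y c) :
    x = y := by
  by_contra h
  have h1 := hx y (Ne.symm h)
  have h2 := hy x h
  exact lt_asymm h1 h2

/-- the basic condition -/
def Star (A B : Fin 3 → Fin 3 → ℝ) : Prop :=
  ∀ x x' y, x ≠ x' → ∃ c, A x' c < A x c ∧ B y c < A x c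

theorem dichotomy {A B : Fin 3 → Fin 3 → ℝ} (hA : Star A B) (hB : Star B A) (x y : Fin 3) :
    (∃ c, Top A x c) ∨
      (∃ c, Top B y c ∧ A x c < B y c) := by
  obtain ⟨x1, hx1⟩ : ∃ x1 : Fin 3, x ≠ x1 := by revert x; decide
  obtain ⟨y1, hy1⟩ : ∃ y1 : Fin 3, y ≠ y1 := by revert y; decide
  obtain ⟨c0, -, hc0⟩ := hA x x1 y hx1
  obtain ⟨d0, -, hd0⟩ := hB y y1 x hy1
  by_cases h : ∀ d, B y d < A x d → d = c0
  · left
    refine ⟨c0, fun x' hx' => ?_⟩
    obtain ⟨c, hc, hc'⟩ := hA x x' y (Ne.symm hx')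
    rw [h c hc'] at hc
    exact hc
  · right
    push Not at h
    obtain ⟨c1, hc1, hne⟩ := h
    have hd00 : d0 ≠ c0 := by
      rintro rfl; exact lt_asymm hc0 hd0
    have hd01 : d0 ≠ c1 := by
      rintro rfl; exact lt_asymm hc1 hd0
    refine ⟨d0, fun y' hy' => ?_, hd0⟩
    obtain ⟨c, hc, hc'⟩ := hB y y' x (Ne.symm hy')
    have e0 : c ≠ c0 := by rintro rfl; exact lt_asymm hc0 hc'
    have e1 : c ≠ c1 := by rintro rfl; exact lt_asymm hc1 hc'
    rw [third c0 c1 d0 (Ne.symm hne) hd00 hd01 c e0 e1] at hc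
    exact hc

/-- every element is a strict maximum somewhere -/
theorem exists_top {A B : Fin 3 → Fin 3 → ℝ} (hA : Star A B) (hB : Star B A) (x : Fin 3) :
    ∃ c, Top A x c := by
  by_contra hno
  have h : ∀ y, ∃ c, Top B y c ∧ A x c < B y c := fun y =>
    (dichotomy hA hB x y).resolve_left hno
  choose γ hγ hγ' using h
  have hinj : Function.Injective γ := fun y y' hy => top_unique (hγ y) (hy ▸ hγ y')
  have hsurj : Function.Surjective γ := Finite.surjective_of_injective hinj
  have key : ∀ x', x' ≠ x → ∀ e, ∃ c, c ≠ e ∧ A x' c < A x c := by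
    intro x' hx' e
    obtain ⟨y, rfl⟩ := hsurj e
    obtain ⟨c, hc, hc'⟩ := hA x x' y (Ne.symm hx')
    refine ⟨c, ?_, hc⟩
    rintro rfl
    exact lt_asymm (hγ' y) hc'
  obtain ⟨x1, x2, h1, h2, h12, hall⟩ := others x
  obtain ⟨c1, -, hc1⟩ := key x1 h1 0
  obtain ⟨c2, hne12, hc2⟩ := key x1 h1 c1
  obtain ⟨c3, -, hc3⟩ := key x2 h2 0
  obtain ⟨c4, hne34, hc4⟩ := key x2 h2 c3
  have hfin : ∀ c, A x1 c < A x c → A x2 c < A x c → False := by
    intro c ha hb
    refine hno ⟨c, fun x' hx' => ?_⟩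
    rcases hall x' hx' with rfl | rfl
    · exact ha
    · exact hb
  rcases comb c1 c2 c3 c4 hne12 hne34 with rfl | rfl | rfl | rfl
  · exact hfin _ hc1 hc3
  · exact hfin _ hc1 hc4
  · exact hfin _ hc2 hc3
  · exact hfin _ hc2 hc4

theorem choose_tops {A B : Fin 3 → Fin 3 → ℝ} (hA : Star A B) (hB : Star B A) :
    ∃ X : Fin 3 → Fin 3, Function.Injective X ∧ ∀ c, Top A (X c) c := by
  choose α hα using exists_top hA hB
  have hinj : Function.Injective α := fun x x' h => top_unique (hα x) (h ▸ hα x')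
  have hsurj : Function.Surjective α := Finite.surjective_of_injective hinj
  choose X hX using hsurj
  refine ⟨X, fun c c' h => by rw [← hX c, ← hX c', h], fun c => ?_⟩
  have := hα (X c)
  rwa [hX c] at this

theorem no_two {A B : Fin 3 → Fin 3 → ℝ} (hB : Star B A) (X Y : Fin 3 → Fin 3)
    (hY : Function.Injective Y) (hYt : ∀ c, Top B (Y c) c) (c c' : Fin 3)
    (hcc : c ≠ c') (h : B (Y c) c ≤ A (X c) c) (h' : B (Y c') c' ≤ A (X c') c') : False := by
  have hne : Y c ≠ Y c' := fun e => hcc (hY e)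
  obtain ⟨d, hd, hd'⟩ := hB (Y c) (Y c') (X c) hne
  obtain ⟨e, he, he'⟩ := hB (Y c') (Y c) (X c') (Ne.symm hne)
  have d1 : d ≠ c := by rintro rfl; exact absurd hd' (not_lt.mpr h)
  have d2 : d ≠ c' := by
    rintro rfl
    exact lt_asymm hd (hYt d (Y c) hne)
  have e1 : e ≠ c' := by rintro rfl; exact absurd he' (not_lt.mpr h')
  have e2 : e ≠ c := by
    rintro rfl
    exact lt_asymm he (hYt e (Y c') (Ne.symm hne))
  have : e = d := third c c' d hcc d1 d2 e e2 e1
  subst this
  exact lt_asymm hd he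

theorem star_false {A B : Fin 3 → Fin 3 → ℝ} (hA : Star A B) (hB : Star B A) : False := by
  obtain ⟨X, hXi, hX⟩ := choose_tops hA hB
  obtain ⟨Y, hYi, hY⟩ := choose_tops hB hA
  have n1 : ∀ c c', c ≠ c' → B (Y c) c ≤ A (X c) c → B (Y c') c' ≤ A (X c') c' → False :=
    fun c c' hcc h h' => no_two hB X Y hYi hY c c' hcc h h'
  have n2 : ∀ c c', c ≠ c' → A (X c) c ≤ B (Y c) c → A (X c') c' ≤ B (Y c') c' → False :=
    fun c c' hcc h h' => no_two hA Y X hXi hX c c' hcc h h'
  rcases le_total (B (Y 0) 0) (A (X 0) 0) with a | a <;>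
  rcases le_total (B (Y 1) 1) (A (X 1) 1) with b | b <;>
  rcases le_total (B (Y 2) 2) (A (X 2) 2) with c | c
  · exact n1 0 1 (by decide) a b
  · exact n1 0 1 (by decide) a b
  · exact n1 0 2 (by decide) a c
  · exact n2 1 2 (by decide) b c
  · exact n1 1 2 (by decide) b c
  · exact n2 0 2 (by decide) a c
  · exact n2 0 1 (by decide) a b
  · exact n2 0 1 (by decide) a b

/-- the sum of the coordinatewise maxima -/
def js (u v : Fin 3 → ℝ) : ℝ := ∑ c, max (u c) (v c)

theorem star_of_js {A B : Fin 3 → Fin 3 → ℝ} (h1 : ∀ i j, js (A i) (B j) ≤ 0)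
    (h2 : ∀ i i', i ≠ i' → 0 < js (A i) (A i')) : Star A B := by
  intro x x' y hx
  by_contra hno
  push Not at hno
  have : js (A x) (A x') ≤ js (A x') (B y) := by
    refine Finset.sum_le_sum fun c _ => ?_
    by_cases hc : A x' c < A x c
    · have := hno c hc
      rw [max_eq_left hc.le]
      exact le_trans this (le_max_right _ _)
    · rw [max_eq_right (not_lt.mp hc)]
      exact le_max_left _ _
  have a := h1 x' y
  have b := h2 x x' hx
  linarith

theorem js_comm (u v : Fin 3 → ℝ) : js u v = js v u := by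
  simp only [js, max_comm]

/-- adjacency in a max-tolerance representation -/
theorem adj_iff (a b t a' b' t' : ℝ) (ht : 0 < t) :
    max t t' ≤ MeasureTheory.volume.real (Set.Icc a b ∩ Set.Icc a' b') ↔
      js ![t, a, -b] ![t', a', -b'] ≤ 0 := by
  have hpos : 0 < max t t' := lt_of_lt_of_le ht (le_max_left _ _)
  have e : MeasureTheory.volume.real (Set.Icc a b ∩ Set.Icc a' b')
      = max (min b b' - max a a') 0 := by
    rw [Set.Icc_inter_Icc, MeasureTheory.Measure.real, Real.volume_Icc, ENNReal.toReal_ofReal']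
  have e2 : js ![t, a, -b] ![t', a', -b'] = max t t' + max a a' + - min b b' := by
    simp only [js, Fin.sum_univ_three, Matrix.cons_val_zero, Matrix.cons_val_one,
      Matrix.cons_val]
    rw [max_neg_neg]
  rw [e, e2]
  constructor
  · intro h
    rcases le_max_iff.mp h with h | h
    · linarith
    · linarith
  · intro h
    refine le_trans ?_ (le_max_left _ _)
    linarith

theorem not_max : ¬ IsToleranceGraph (fun x y => max x y) K33 := by
  rintro ⟨a, b, t, -, ht, h⟩
  let v : Fin 3 ⊕ Fin 3 → Fin 3 → ℝ := fun u => ![t u, a u, -b u]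
  have hv : ∀ u w, u ≠ w → (K33.Adj u w ↔ js (v u) (v w) ≤ 0) := fun u w huw =>
    (h u w huw).trans (adj_iff _ _ _ _ _ _ (ht u))
  have h1 : ∀ i j, js (v (Sum.inl i)) (v (Sum.inr j)) ≤ 0 := fun i j =>
    (hv _ _ (by simp)).mp (by simp [K33])
  have h2 : ∀ i i', i ≠ i' → 0 < js (v (Sum.inl i)) (v (Sum.inl i')) := fun i i' hi => by
    have := hv (Sum.inl i) (Sum.inl i') (by simpa using hi)
    by_contra hle
    have := this.mpr (not_lt.mp hle)
    simp [K33] at this
  have h3 : ∀ i i', i ≠ i' → 0 < js (v (Sum.inr i)) (v (Sum.inr i')) := fun i i' hi => by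
    have := hv (Sum.inr i) (Sum.inr i') (by simpa using hi)
    by_contra hle
    have := this.mpr (not_lt.mp hle)
    simp [K33] at this
  exact star_false (A := fun i => v (Sum.inl i)) (B := fun j => v (Sum.inr j))
    (star_of_js h1 h2) (star_of_js (fun j i => by rw [js_comm]; exact h1 i j) h3)

/-- **Answer to Q1.** `K_{3,3}` is not a max-tolerance graph, hence it is non-Archimedean. -/
theorem result :
    ¬ IsToleranceGraph (fun x y => max x y) K33 ∧ ¬ IsArchimedean K33 :=
  ⟨not_max, fun h => not_max (h _ archFun_max)⟩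

end Pool.Agent.Results.MP_3f93e8_co.KThreeThree
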